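import Pool.Agent.Helper65.CG.Defs2

/-!
# Project UB, module S4: the number of choices of the exceptional pairs
-/

set_option autoImplicit false

namespace Pool.Agent.Helper65.CG

open scoped Classical
open Pool.Agent.Helper65.CliqueGame

variable {n q m : ℕ}

theorem ych_card (Y : Prs q) {y : ℕ} (hy : 1 ≤ y) (hy' : y ≤ q ^ 2) :
    lb (Ych Y y).card ≤ y * Real.logb 2 (3 * (q : ℝ) ^ 2 / y) := by
  have hN : (0 : ℝ) < (q : ℝ) ^ 2 := by
    have : 0 < q ^ 2 := lt_of_lt_of_le hy hy'
    exact_mod_cast this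
  have hq0 : (q : ℝ) ≠ 0 := by
    intro h
    rw [h] at hN
    norm_num at hN
  have hyr : (0 : ℝ) < y := by exact_mod_cast hy
  have hyN : (y : ℝ) ≤ (q : ℝ) ^ 2 := by exact_mod_cast hy'
  set a : ℝ := (y : ℝ) / (q : ℝ) ^ 2 with ha
  have ha0 : 0 < a := div_pos hyr hN
  have ha1 : a ≤ 1 := (div_le_one hN).mpr hyN
  -- weighted count
  have hsum : ∑ S ∈ (Finset.univ : Finset (Fin q × Fin q)).powerset, a ^ S.card =
      (a + 1) ^ (q ^ 2) := by
    have h := Finset.sum_pow_mul_eq_add_pow a 1 (Finset.univ : Finset (Fin q × Fin q))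
    simp only [one_pow, mul_one] at h
    rw [h]
    congr 1
    rw [Finset.card_univ, Fintype.card_prod, Fintype.card_fin, sq]
  have hcard : ((Ych Y y).card : ℝ) * a ^ y ≤ (a + 1) ^ (q ^ 2) := by
    rw [← hsum]
    have hinj : Set.InjOn (fun Y' : Prs q => Y \ Y') (Ych Y y : Finset (Prs q)) := by
      intro A hA B hB hAB
      simp only [Ych, Finset.coe_filter, Finset.mem_powerset, Set.mem_setOf_eq] at hA hB
      have h1 : Y \ (Y \ A) = A := by rw [Finset.sdiff_sdiff_eq_self hA.1]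
      have h2 : Y \ (Y \ B) = B := by rw [Finset.sdiff_sdiff_eq_self hB.1]
      simp only at hAB
      rw [← h1, ← h2, hAB]
    calc ((Ych Y y).card : ℝ) * a ^ y = ∑ _Y' ∈ Ych Y y, a ^ y := by
          rw [Finset.sum_const, nsmul_eq_mul]
      _ ≤ ∑ Y' ∈ Ych Y y, a ^ (Y \ Y').card := by
          apply Finset.sum_le_sum
          intro Y' hY'
          simp only [Ych, Finset.mem_filter] at hY'
          exact pow_le_pow_of_le_one ha0.le ha1 hY'.2
      _ = ∑ S ∈ (Ych Y y).image (fun Y' => Y \ Y'), a ^ S.card := by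
          rw [Finset.sum_image hinj]
      _ ≤ ∑ S ∈ (Finset.univ : Finset (Fin q × Fin q)).powerset, a ^ S.card := by
          apply Finset.sum_le_sum_of_subset_of_nonneg
          · intro S _
            exact Finset.mem_powerset.mpr (Finset.subset_univ _)
          · intro S _ _
            positivity
  have hexp : (a + 1) ^ (q ^ 2) ≤ Real.exp 1 ^ y := by
    calc (a + 1) ^ (q ^ 2) ≤ (Real.exp a) ^ (q ^ 2) :=
          pow_le_pow_left₀ (by positivity) (Real.add_one_le_exp a) _
      _ = Real.exp 1 ^ y := by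
          rw [← Real.exp_nat_mul, ← Real.exp_nat_mul]
          congr 1
          rw [ha]
          push_cast
          field_simp
  have he3 : Real.exp 1 ≤ 3 := le_of_lt (lt_trans Real.exp_one_lt_d9 (by norm_num))
  have hfin : ((Ych Y y).card : ℝ) ≤ (3 * (q : ℝ) ^ 2 / y) ^ y := by
    have h1 : ((Ych Y y).card : ℝ) * a ^ y ≤ 3 ^ y :=
      le_trans hcard (le_trans hexp (pow_le_pow_left₀ (Real.exp_pos 1).le he3 _))
    have h2 : (3 * (q : ℝ) ^ 2 / y) ^ y * a ^ y = 3 ^ y := by
      rw [← mul_pow, ha]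
      congr 1
      field_simp
    have h3 : 0 < a ^ y := pow_pos ha0 _
    rw [← h2] at h1
    exact le_of_mul_le_mul_right h1 h3
  have hpos : 0 < ((Ych Y y).card : ℝ) := by
    have : Y ∈ Ych Y y := by
      simp [Ych]
    exact_mod_cast Finset.card_pos.mpr ⟨Y, this⟩
  unfold lb
  calc Real.logb 2 ((Ych Y y).card : ℝ) ≤ Real.logb 2 ((3 * (q : ℝ) ^ 2 / y) ^ y) :=
        Real.logb_le_logb_of_le (by norm_num) hpos hfin
    _ = y * Real.logb 2 (3 * (q : ℝ) ^ 2 / y) := by
        rw [Real.logb_pow]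

end Pool.Agent.Helper65.CG
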